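import Pool.Agent.H43.G.R_seed8.R498.MT.Quad
import Pool.Agent.H43.G.R_seed8.H410R2.MTuple

set_option autoImplicit false
set_option linter.unusedSectionVars false

/-! The main terms. -/

namespace Pool.Agent.R498.MT

open Finset
open Pool.Agent.H410R2 (fib mem_fib sum_tuple_le sum_tuple_ge)

section main
variable {S J : Type} [Fintype S] [DecidableEq S] [Fintype J] [DecidableEq J]

/-- the main part of the local moments -/
def VM (i : Option J) (q : ℝ) : Option J → Option J → ℝ
  | none, none => 1
  | none, some k => if i = some k then -1 else 0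
  | some j, none => if i = some j then -1 else 0
  | some j, some k => if i = some j then (if i = some k then 1 else 0) else
      (if j = k then q - 1 else 0)

/-- factors of the main part -/
def kk (i : Option J) : Option J → Option J → ℝ
  | none, none => 1
  | none, some j => if i = some j then -1 else 0
  | some _, none => 0
  | some k, some j => if i = some k then 0 else (if j = k then 1 else 0)

def dd (q : ℝ) : Option J → ℝ
  | none => 1
  | some _ => q - 1

theorem VM_eq (i : Option J) (q : ℝ) (a b : Option J) :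
    VM i q a b = ∑ s, dd q s * (kk i s a * kk i s b) := by
  rw [Fintype.sum_option]
  rcases a with _ | j
  · rcases b with _ | k
    · simp [VM, kk, dd]
    · simp [VM, kk, dd]
  · rcases b with _ | k
    · simp [VM, kk, dd]
    · simp only [VM, kk, dd, one_mul]
      have e : ∀ l : J, (q - 1) * ((if i = some l then (0 : ℝ) else (if j = l then 1 else 0)) *
          (if i = some l then 0 else (if k = l then 1 else 0))) =
          if l = j then (if i = some j then 0 else (if j = k then q - 1 else 0)) else 0 := by
        intro l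
        by_cases h : l = j
        · subst h
          by_cases h' : i = some l
          · simp [h']
          · by_cases h'' : l = k
            · subst h''; simp [h']
            · have h3 : ¬ k = l := fun h => h'' h.symm
              simp [h', h'', h3]
        · have h3 : ¬ j = l := fun h' => h h'.symm
          simp [h, h3]
      rw [sum_congr rfl (fun l _ => e l), sum_ite_eq' univ j]
      simp only [mem_univ, if_true]
      by_cases h : i = some j
      · by_cases h' : i = some k
        · simp only [if_pos h, if_pos h']; ring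
        · simp only [if_pos h, if_neg h']; ring
      · by_cases h' : i = some k
        · simp only [if_neg h, if_pos h']; ring
        · simp only [if_neg h, if_neg h']; ring

theorem main_eq (i : Option J) (q μ : S → ℝ) (y : (S → Option J) → ℝ) :
    ∑ σ, ∑ τ, cw μ y σ * cw μ y τ * ∏ t, VM i (q t) (σ t) (τ t) =
      ∑ s : S → Option J, (∏ t, dd (q t) (s t)) * (∑ σ, cw μ y σ * ∏ t, kk i (s t) (σ t)) ^ 2 := by
  have h1 : ∀ σ τ : S → Option J, ∏ t, VM i (q t) (σ t) (τ t) =
      ∑ s : S → Option J, (∏ t, dd (q t) (s t)) * ((∏ t, kk i (s t) (σ t)) *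
        ∏ t, kk i (s t) (τ t)) := by
    intro σ τ
    simp_rw [VM_eq]
    rw [← sum_prod (fun t s => dd (q t) s * (kk i s (σ t) * kk i s (τ t)))]
    refine sum_congr rfl fun s _ => ?_
    rw [prod_mul_distrib, prod_mul_distrib]
  simp_rw [h1]
  calc ∑ σ, ∑ τ, cw μ y σ * cw μ y τ * ∑ s : S → Option J, (∏ t, dd (q t) (s t)) *
        ((∏ t, kk i (s t) (σ t)) * ∏ t, kk i (s t) (τ t)) =
      ∑ σ, ∑ τ, ∑ s : S → Option J, (∏ t, dd (q t) (s t)) *
        ((cw μ y σ * ∏ t, kk i (s t) (σ t)) * (cw μ y τ * ∏ t, kk i (s t) (τ t))) := by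
        refine sum_congr rfl fun σ _ => sum_congr rfl fun τ _ => ?_
        rw [mul_sum]
        refine sum_congr rfl fun s _ => ?_
        ring
    _ = ∑ s : S → Option J, ∑ σ, ∑ τ, (∏ t, dd (q t) (s t)) *
        ((cw μ y σ * ∏ t, kk i (s t) (σ t)) * (cw μ y τ * ∏ t, kk i (s t) (τ t))) := by
        rw [sum_congr rfl (fun σ _ => sum_comm), sum_comm]
    _ = _ := by
        refine sum_congr rfl fun s _ => ?_
        rw [sq, sum_mul_sum, mul_sum]
        refine sum_congr rfl fun σ _ => ?_
        rw [mul_sum]

/-- mass of a set -/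
def ms (μ : S → ℝ) (a : Finset S) : ℝ := ∏ t ∈ a, μ t

/-- size of a set -/
def lz (l : S → ℝ) (a : Finset S) : ℝ := ∑ t ∈ a, l t

/-- size of a colouring -/
def lt (l : S → ℝ) (σ : S → Option J) : ℝ := ∑ t, if σ t = none then 0 else l t

/-- mass of a colouring -/
def mt (μ : S → ℝ) (σ : S → Option J) : ℝ := ∏ t, if σ t = none then 1 else μ t

theorem mt_eq (μ : S → ℝ) (σ : S → Option J) : mt μ σ = ∏ j, ms μ (fib σ j) := by
  unfold mt ms
  have : ∀ j, ∏ t ∈ fib σ j, μ t = ∏ t, (if σ t = some j then μ t else 1) := by
    intro j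
    rw [fib, Finset.prod_filter]
  simp_rw [this]
  rw [Finset.prod_comm]
  refine Finset.prod_congr rfl fun t _ => ?_
  rcases h : σ t with _ | l
  · simp
  · simp

theorem lt_eq (l : S → ℝ) (σ : S → Option J) : lt l σ = ∑ j, lz l (fib σ j) := by
  unfold lt lz
  have : ∀ j, ∑ t ∈ fib σ j, l t = ∑ t, (if σ t = some j then l t else 0) := by
    intro j
    rw [fib, Finset.sum_filter]
  simp_rw [this]
  rw [Finset.sum_comm]
  refine Finset.sum_congr rfl fun t _ => ?_
  rcases h : σ t with _ | l
  · simp
  · simp

/-- the smooth weights -/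
noncomputable def yy (l : S → ℝ) (G : Finset S → ℝ) (R : ℝ) (σ : S → Option J) : ℝ :=
  if lt l σ ≤ R then ∏ j, G (fib σ j) else 0

theorem yy_nonneg (l : S → ℝ) (G : Finset S → ℝ) (hG0 : ∀ a, 0 ≤ G a) (R : ℝ)
    (σ : S → Option J) : 0 ≤ yy l G R σ := by
  unfold yy
  split_ifs
  · exact prod_nonneg fun _ _ => hG0 _
  · exact le_rfl

theorem yy_le (l : S → ℝ) (G : Finset S → ℝ) (hG0 : ∀ a, 0 ≤ G a) (R : ℝ)
    (σ : S → Option J) : yy l G R σ ≤ ∏ j, G (fib σ j) := by
  unfold yy
  split_ifs
  · exact le_rfl
  · exact prod_nonneg fun _ _ => hG0 _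

/-- upper bound for the first main term -/
theorem S1_main (q μ l : S → ℝ) (hq : ∀ t, 2 ≤ q t) (hμ : ∀ t, 0 ≤ μ t)
    (hμq : ∀ t, μ t * (q t - 1) ≤ 1) (G : Finset S → ℝ) (hG0 : ∀ a, 0 ≤ G a) (R : ℝ) :
    ∑ σ, ∑ τ, cw μ (yy (J := J) l G R) σ * cw μ (yy l G R) τ *
      ∏ t, VM none (q t) (σ t) (τ t) ≤ (∑ a, ms μ a * G a ^ 2) ^ (Fintype.card J) := by
  rw [main_eq]
  have h1 : ∀ s : S → Option J, ∑ σ, cw μ (yy l G R) σ * ∏ t, kk none (s t) (σ t) =
      cw μ (yy l G R) s := by
    intro s
    rw [sum_eq_single s]
    · have : ∏ t, kk none (s t) (s t) = 1 := by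
        apply prod_eq_one
        intro t _
        rcases s t with _ | k <;> simp [kk]
      rw [this, mul_one]
    · intro σ _ hne
      have : ∃ t, s t ≠ σ t := by
        by_contra hcon
        push Not at hcon
        exact hne (funext fun t => (hcon t).symm)
      obtain ⟨t, ht⟩ := this
      rw [prod_eq_zero (mem_univ t), mul_zero]
      rcases hs : s t with _ | k
      · rcases hσ : σ t with _ | j
        · rw [hs, hσ] at ht; exact absurd rfl ht
        · simp [kk]
      · rcases hσ : σ t with _ | j
        · simp [kk]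
        · rw [hs, hσ] at ht
          have : ¬ j = k := fun h => ht (by rw [h])
          simp [kk, this]
    · intro h; exact absurd (mem_univ _) h
  simp_rw [h1]
  have h2 : ∀ s : S → Option J, (∏ t, dd (q t) (s t)) * cw μ (yy l G R) s ^ 2 ≤
      ∏ j, (ms μ (fib s j) * G (fib s j) ^ 2) := by
    intro s
    rw [prod_mul_distrib, ← mt_eq, prod_pow]
    unfold cw
    rw [mul_pow, ← mul_assoc]
    have e1 : (∏ t, dd (q t) (s t)) * (∏ t, cf (μ t) (s t)) ^ 2 ≤ mt μ s := by
      rw [← prod_pow, ← prod_mul_distrib]
      unfold mt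
      apply prod_le_prod
      · intro t _
        rcases s t with _ | k
        · simp [dd, cf]
        · simp only [dd, cf]
          have := hq t
          apply mul_nonneg (by linarith) (sq_nonneg _)
      · intro t _
        rcases s t with _ | k
        · simp [dd, cf]
        · simp only [dd, cf, reduceCtorEq, if_false]
          have h3 := hμq t
          have h4 := hμ t
          nlinarith
    have e2 : yy l G R s ^ 2 ≤ (∏ j, G (fib s j)) ^ 2 :=
      pow_le_pow_left₀ (yy_nonneg l G hG0 R s) (yy_le l G hG0 R s) 2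
    have e3 : 0 ≤ mt μ s := by
      unfold mt
      apply prod_nonneg
      intro t _
      split_ifs
      · norm_num
      · exact hμ t
    exact mul_le_mul e1 e2 (sq_nonneg _) e3
  calc ∑ s, (∏ t, dd (q t) (s t)) * cw μ (yy l G R) s ^ 2 ≤
      ∑ s : S → Option J, ∏ j, (ms μ (fib s j) * G (fib s j) ^ 2) :=
        sum_le_sum fun s _ => h2 s
    _ ≤ ∏ _j : J, ∑ a : Finset S, ms μ a * G a ^ 2 :=
        sum_tuple_le (fun _ a => ms μ a * G a ^ 2) (fun _ a =>
          mul_nonneg (prod_nonneg fun t _ => hμ t) (sq_nonneg _))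
    _ = _ := by rw [prod_const, card_univ]

/-- extend `s` by the colour `i` on `a` -/
def ext (s : S → Option J) (i : J) (a : Finset S) (t : S) : Option J :=
  if s t ≠ none then s t else if t ∈ a then some i else none

theorem ext_inj (s : S → Option J) (i : J) {a b : Finset S}
    (ha : a ⊆ univ.filter (fun t => s t = none)) (hb : b ⊆ univ.filter (fun t => s t = none))
    (h : ext s i a = ext s i b) : a = b := by
  ext t
  by_cases ht : s t = none
  · have := congrFun h t
    simp only [ext, ht] at this
    by_cases h1 : t ∈ a <;> by_cases h2 : t ∈ b <;> simp [h1, h2] at this ⊢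
  · constructor
    · intro h'
      exact absurd (mem_filter.1 (ha h')).2 ht
    · intro h'
      exact absurd (mem_filter.1 (hb h')).2 ht

theorem fib_ext (s : S → Option J) (i : J) (hs : ∀ t, s t ≠ some i) (a : Finset S)
    (ha : a ⊆ univ.filter (fun t => s t = none)) (j : J) :
    fib (ext s i a) j = if j = i then a else fib s j := by
  ext t
  rw [mem_fib]
  unfold ext
  by_cases hj : j = i
  · subst hj
    rw [if_pos rfl]
    by_cases ht : s t = none
    · simp [ht]
    · simp only [ne_eq, ht, not_false_eq_true, if_true]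
      constructor
      · intro h; exact absurd h (hs t)
      · intro h; exact absurd (mem_filter.1 (ha h)).2 ht
  · rw [if_neg hj, mem_fib]
    by_cases ht : s t = none
    · simp only [ht, ne_eq, not_true_eq_false, if_false]
      by_cases h : t ∈ a
      · simp [h]
        exact fun h' => hj h'.symm
      · simp [h]
    · simp [ht]

theorem sq_lower (i : J) (q μ : S → ℝ) (hμ : ∀ t, 0 ≤ μ t)
    (hμq : ∀ t, μ t = 0 ∨ μ t * (q t - 1) = 1) (y : (S → Option J) → ℝ) (hy : ∀ σ, 0 ≤ y σ)
    (s : S → Option J) (hs : ∀ t, s t ≠ some i) :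
    mt μ s * (∑ a ∈ (univ.filter (fun t => s t = none)).powerset, ms μ a * y (ext s i a)) ^ 2 ≤
      (∏ t, dd (q t) (s t)) * (∑ σ, cw μ y σ * ∏ t, kk (some i) (s t) (σ t)) ^ 2 := by
  classical
  -- sign
  set g : S → ℝ := fun t => if s t = none then 1 else -(μ t) with hg
  set w : S → Option J → ℝ := fun t v => if s t = none then (if v = none then 1 else
    (if v = some i then μ t else 0)) else (if v = s t then 1 else 0) with hw
  have hw0 : ∀ t v, 0 ≤ w t v := by
    intro t v
    simp only [hw]
    have := hμ t
    split_ifs <;> first | exact this | norm_num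
  have h1 : ∀ σ : S → Option J, cw μ y σ * ∏ t, kk (some i) (s t) (σ t) =
      (∏ t, g t) * (y σ * ∏ t, w t (σ t)) := by
    intro σ
    unfold cw
    have e : (∏ t, cf (μ t) (σ t)) * ∏ t, kk (some i) (s t) (σ t) = (∏ t, g t) * ∏ t, w t (σ t) := by
      rw [← prod_mul_distrib, ← prod_mul_distrib]
      refine prod_congr rfl fun t _ => ?_
      simp only [hg, hw]
      rcases hs' : s t with _ | k
      · rcases hσ : σ t with _ | j
        · simp [cf, kk]
        · by_cases hj : i = j
          · subst hj; simp [cf, kk]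
          · have hj' : ¬ j = i := fun h => hj h.symm
            simp [cf, kk, hj, hj']
      · have hk : ¬ i = k := by
          rintro rfl
          exact hs t hs'
        rcases hσ : σ t with _ | j
        · simp [cf, kk]
        · by_cases hj : j = k
          · subst hj; simp [cf, kk, hk]
          · simp [cf, kk, hk, hj]
    calc (∏ t, cf (μ t) (σ t)) * y σ * ∏ t, kk (some i) (s t) (σ t) =
        ((∏ t, cf (μ t) (σ t)) * ∏ t, kk (some i) (s t) (σ t)) * y σ := by ring
      _ = _ := by rw [e]; ring
  rw [sum_congr rfl (fun σ _ => h1 σ), ← mul_sum, mul_pow, ← mul_assoc]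
  have h2 : (∏ t, dd (q t) (s t)) * (∏ t, g t) ^ 2 = mt μ s := by
    rw [← prod_pow, ← prod_mul_distrib]
    unfold mt
    refine prod_congr rfl fun t _ => ?_
    simp only [hg]
    rcases hs' : s t with _ | k
    · simp [dd]
    · simp only [dd, reduceCtorEq, if_false]
      rcases hμq t with h | h
      · rw [h]; ring
      · calc (q t - 1) * (-(μ t)) ^ 2 = (μ t * (q t - 1)) * μ t := by ring
          _ = μ t := by rw [h, one_mul]
  rw [h2]
  have hm0 : 0 ≤ mt μ s := by
    unfold mt
    apply prod_nonneg
    intro t _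
    split_ifs
    · norm_num
    · exact hμ t
  apply mul_le_mul_of_nonneg_left _ hm0
  have hpow0 : 0 ≤ ∑ a ∈ (univ.filter (fun t => s t = none)).powerset, ms μ a * y (ext s i a) :=
    sum_nonneg fun a _ => mul_nonneg (prod_nonneg fun t _ => hμ t) (hy _)
  apply pow_le_pow_left₀ hpow0
  have h3 : ∀ a ∈ (univ.filter (fun t => s t = none)).powerset,
      ∏ t, w t (ext s i a t) = ms μ a := by
    intro a ha
    rw [mem_powerset] at ha
    unfold ms
    rw [← Finset.prod_subset (Finset.subset_univ a)]
    · apply Finset.prod_congr rfl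
      intro t ht
      have h0 : s t = none := (Finset.mem_filter.1 (ha ht)).2
      simp [hw, ext, h0, ht]
    · intro t _ hta
      simp only [hw, ext]
      rcases hs' : s t with _ | k
      · simp [hta]
      · simp
  calc ∑ a ∈ (univ.filter (fun t => s t = none)).powerset, ms μ a * y (ext s i a) =
      ∑ a ∈ (univ.filter (fun t => s t = none)).powerset,
        y (ext s i a) * ∏ t, w t (ext s i a t) := by
        refine sum_congr rfl fun a ha => ?_
        rw [h3 a ha]; ring
    _ = ∑ ρ ∈ ((univ.filter (fun t => s t = none)).powerset).image (fun a => ext s i a),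
        y ρ * ∏ t, w t (ρ t) := by
        rw [sum_image]
        intro a ha b hb hab
        exact ext_inj s i (mem_powerset.1 ha) (mem_powerset.1 hb) hab
    _ ≤ _ := by
        apply sum_le_sum_of_subset_of_nonneg (subset_univ _)
        intro ρ _ _
        exact mul_nonneg (hy _) (prod_nonneg fun t _ => hw0 _ _)

end main

end Pool.Agent.R498.MT
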