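import Mathlib

set_option autoImplicit false
set_option linter.unusedSectionVars false

/-! Products over a finite index set, expansions in classes. -/

namespace Pool.Agent.R498.MT

open Finset

section base
variable {S J : Type} [Fintype S] [DecidableEq S] [Fintype J] [DecidableEq J]

theorem prod_sub_le (s : Finset S) (u v w : S → ℝ) (h : ∀ t ∈ s, |u t - v t| ≤ w t) :
    |∏ t ∈ s, u t - ∏ t ∈ s, v t| ≤ ∏ t ∈ s, (|v t| + w t) - ∏ t ∈ s, |v t| := by
  classical
  induction s using Finset.induction_on with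
  | empty => simp
  | insert a s ha ih =>
    have ih' := ih (fun t ht => h t (mem_insert_of_mem ht))
    have h1 := h a (mem_insert_self _ _)
    rw [prod_insert ha, prod_insert ha, prod_insert ha, prod_insert ha]
    have h2 : u a * ∏ t ∈ s, u t - v a * ∏ t ∈ s, v t =
        (u a - v a) * ∏ t ∈ s, u t + v a * (∏ t ∈ s, u t - ∏ t ∈ s, v t) := by ring
    have h3 : |∏ t ∈ s, u t| ≤ ∏ t ∈ s, (|v t| + w t) := by
      rw [abs_prod]
      apply prod_le_prod (fun t _ => abs_nonneg _)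
      intro t ht
      have h4 := h t (mem_insert_of_mem ht)
      have h5 := abs_add_le (v t) (u t - v t)
      rw [show v t + (u t - v t) = u t by ring] at h5
      linarith
    have hw : 0 ≤ w a := (abs_nonneg _).trans h1
    rw [h2]
    refine (abs_add_le _ _).trans ?_
    rw [abs_mul, abs_mul]
    have h6 : |u a - v a| * |∏ t ∈ s, u t| ≤ w a * ∏ t ∈ s, (|v t| + w t) :=
      mul_le_mul h1 h3 (abs_nonneg _) hw
    have h7 : |v a| * |∏ t ∈ s, u t - ∏ t ∈ s, v t| ≤
        |v a| * (∏ t ∈ s, (|v t| + w t) - ∏ t ∈ s, |v t|) :=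
      mul_le_mul_of_nonneg_left ih' (abs_nonneg _)
    linarith

theorem prod_add_sub_le (s : Finset S) (α w : S → ℝ) (hα : ∀ t ∈ s, 1 ≤ α t) (hw : ∀ t ∈ s, 0 ≤ w t) :
    ∏ t ∈ s, (α t + w t) - ∏ t ∈ s, α t ≤ (∏ t ∈ s, α t) * (Real.exp (∑ t ∈ s, w t) - 1) := by
  have h1 : ∏ t ∈ s, (α t + w t) ≤ (∏ t ∈ s, α t) * Real.exp (∑ t ∈ s, w t) := by
    rw [Real.exp_sum, ← prod_mul_distrib]
    apply prod_le_prod
    · intro t ht
      linarith [hα t ht, hw t ht]
    · intro t ht
      have h2 := Real.add_one_le_exp (w t)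
      have h3 := hα t ht
      have h4 := hw t ht
      nlinarith
  linarith

theorem sum_prod (f : S → Option J → ℝ) :
    ∑ σ : S → Option J, ∏ t, f t (σ t) = ∏ t, ∑ v, f t v := by
  rw [prod_univ_sum]
  simp

theorem sum_prod2 (f : S → Option J → Option J → ℝ) :
    ∑ σ : S → Option J, ∑ τ : S → Option J, ∏ t, f t (σ t) (τ t) = ∏ t, ∑ a, ∑ b, f t a b := by
  rw [← sum_prod (fun t a => ∑ b, f t a b)]
  refine sum_congr rfl fun σ _ => ?_
  rw [← sum_prod (fun t b => f t (σ t) b)]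

/-- the conditions `T` hold for `ξ` -/
def Sub (T ξ : S → Option J) : Prop := ∀ t, T t = none ∨ T t = ξ t

instance (T ξ : S → Option J) : Decidable (Sub T ξ) := by unfold Sub; infer_instance

/-- coefficients of a local function -/
def co (φ : Option J → ℝ) : Option J → ℝ
  | none => φ none
  | some j => φ (some j) - φ none

theorem co_sum (φ : Option J → ℝ) (x : Option J) :
    ∑ v, co φ v * (if v = none ∨ v = x then 1 else 0) = φ x := by
  rw [Fintype.sum_option]
  rcases x with _ | j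
  · simp [co]
  · simp only [true_or, if_true, mul_one, reduceCtorEq, false_or, Option.some.injEq, co]
    simp

theorem expand (φ : S → Option J → ℝ) (ξ : S → Option J) :
    ∏ t, φ t (ξ t) = ∑ T : S → Option J, (∏ t, co (φ t) (T t)) * (if Sub T ξ then 1 else 0) := by
  have h1 : ∀ T : S → Option J, (if Sub T ξ then (1 : ℝ) else 0) =
      ∏ t, (if T t = none ∨ T t = ξ t then (1 : ℝ) else 0) := by
    intro T
    rw [Finset.prod_ite_zero]
    simp [Sub]
  simp_rw [h1, ← prod_mul_distrib]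
  rw [sum_prod (fun t v => co (φ t) v * (if v = none ∨ v = ξ t then 1 else 0))]
  exact prod_congr rfl fun t _ => (co_sum (φ t) (ξ t)).symm

/-- density of a condition -/
def rr (r : J → ℝ) : Option J → ℝ
  | none => 1
  | some j => r j

/-- local expectation -/
def Ex (r : J → ℝ) (φ : Option J → ℝ) : ℝ := φ none + ∑ j, (φ (some j) - φ none) * r j

/-- local norm -/
def Nm (r : J → ℝ) (φ : Option J → ℝ) : ℝ := |φ none| + ∑ j, |φ (some j) - φ none| * r j

theorem Ex_eq (r : J → ℝ) (φ : Option J → ℝ) : ∑ v, co φ v * rr r v = Ex r φ := by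
  rw [Fintype.sum_option]
  simp [co, rr, Ex]

theorem Nm_eq (r : J → ℝ) (φ : Option J → ℝ) : ∑ v, |co φ v| * rr r v = Nm r φ := by
  rw [Fintype.sum_option]
  simp [co, rr, Nm]

/-- the number of `n` in the classes -/
def Cnt (N : Finset ℕ) (ν : ℕ → ℝ) (ξ : ℕ → S → Option J) (r : S → J → ℝ) (X E : ℝ)
    (Good : (S → Option J) → Prop) : Prop :=
  ∀ T, Good T → |∑ n ∈ N, ν n * (if Sub T (ξ n) then 1 else 0) - X * ∏ t, rr (r t) (T t)| ≤
    E * X * ∏ t, rr (r t) (T t)

theorem cnt_prod {N : Finset ℕ} {ν : ℕ → ℝ} {ξ : ℕ → S → Option J} {r : S → J → ℝ} {X E : ℝ}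
    {Good : (S → Option J) → Prop} (h : Cnt N ν ξ r X E Good)
    (φ : S → Option J → ℝ) (hφ : ∀ T : S → Option J, (∀ t, co (φ t) (T t) ≠ 0) → Good T) :
    |∑ n ∈ N, ν n * ∏ t, φ t (ξ n t) - X * ∏ t, Ex (r t) (φ t)| ≤ E * X * ∏ t, Nm (r t) (φ t) := by
  have h1 : ∑ n ∈ N, ν n * ∏ t, φ t (ξ n t) =
      ∑ T : S → Option J, (∏ t, co (φ t) (T t)) * ∑ n ∈ N, ν n * (if Sub T (ξ n) then 1 else 0) := by
    rw [sum_congr rfl (fun n _ => by rw [expand φ (ξ n), mul_sum])]
    rw [sum_comm]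
    refine sum_congr rfl fun T _ => ?_
    rw [mul_sum]
    refine sum_congr rfl fun n _ => ?_
    ring
  have h2 : X * ∏ t, Ex (r t) (φ t) =
      ∑ T : S → Option J, (∏ t, co (φ t) (T t)) * (X * ∏ t, rr (r t) (T t)) := by
    simp_rw [← Ex_eq]
    rw [← sum_prod (fun t v => co (φ t) v * rr (r t) v), mul_sum]
    refine sum_congr rfl fun T _ => ?_
    rw [prod_mul_distrib]
    ring
  have h3 : E * X * ∏ t, Nm (r t) (φ t) =
      ∑ T : S → Option J, |∏ t, co (φ t) (T t)| * (E * X * ∏ t, rr (r t) (T t)) := by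
    simp_rw [← Nm_eq]
    rw [← sum_prod (fun t v => |co (φ t) v| * rr (r t) v), mul_sum]
    refine sum_congr rfl fun T _ => ?_
    rw [prod_mul_distrib, abs_prod]
    ring
  rw [h1, h2, h3, ← sum_sub_distrib]
  refine (abs_sum_le_sum_abs _ _).trans (sum_le_sum fun T _ => ?_)
  rw [← mul_sub, abs_mul]
  by_cases h4 : ∏ t, co (φ t) (T t) = 0
  · rw [h4]; simp
  · apply mul_le_mul_of_nonneg_left _ (abs_nonneg _)
    apply h T
    apply hφ
    intro t ht
    exact h4 (prod_eq_zero (mem_univ t) ht)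

end base

end Pool.Agent.R498.MT
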